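import Mathlib
import Pool.Agent.Helper42.DB.Goals2

set_option autoImplicit false

/-!
# Dispersing billiards (MP_48f005_an): packet XFAM

Two trajectories with the same word whose flights number `k` cross at a point `X` are joined by the
family of trajectories through `X`.
-/

namespace Pool.Agent.Helper42.DB.PkXFAM

open Set Filter Topology

variable {S : Sys}

lemma ee_add_kk (θ : ℝ) {kk : ℝ} (h : Real.cos kk = -1) : ee (θ + kk) = -ee θ := by
  have hs : Real.sin kk = 0 := by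
    have h1 := Real.sin_sq_add_cos_sq kk
    rw [h] at h1
    nlinarith
  apply Complex.ext
  · simp [Real.cos_add, h, hs]
  · simp [Real.sin_add, h, hs]

lemma fl_split {x y : St S} {X : ℂ} (h : Fl x y) (hX : X ∈ openSegment ℝ x.pos y.pos) :
    X ∈ S.Y ∧ Lnd X x.th y ∧ ∀ kk : ℝ, Real.cos kk = -1 → Lnd X (x.th + kk) x.rev := by
  obtain ⟨hx, hy, he, t, ht, hp, hs⟩ := h
  obtain ⟨a, b, ha, hb, hab, hXe⟩ := hX
  have hX1 : X = x.pos + (b * t) • ee x.th := by
    rw [← hXe, hp, smul_add, smul_smul, ← add_assoc, ← add_smul, hab, one_smul]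
  have hbt : 0 < b * t := by positivity
  have hbt' : b * t < t := by nlinarith
  refine ⟨by rw [hX1]; exact hs _ ⟨hbt, hbt'⟩, ⟨hy, he, t - b * t, by linarith, ?_, ?_⟩, ?_⟩
  · rw [hp, hX1, sub_smul]; abel
  · intro s hs'
    rw [hX1, add_assoc, ← add_smul]
    exact hs _ ⟨by linarith [hs'.1], by linarith [hs'.2]⟩
  · intro kk hk
    refine ⟨(St.rev_Ok x).mpr hx, ?_, b * t, hbt, ?_, ?_⟩
    · rw [St.rev_bk, ee_add_kk _ hk]
    · rw [St.rev_pos, ee_add_kk _ hk, hX1, smul_neg]; abel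
    · intro s hs'
      rw [hX1, ee_add_kk _ hk]
      have h1 : x.pos + (b * t) • ee x.th + s • -ee x.th = x.pos + (b * t - s) • ee x.th := by
        rw [sub_smul, smul_neg]; abel
      rw [h1]
      exact hs _ ⟨by linarith [hs'.2], by linarith [hs'.1]⟩

lemma fl_join {x y : St S} {X : ℂ} {θ kk : ℝ} (hk : Real.cos kk = -1) (hX : X ∈ S.Y)
    (hy : Lnd X θ y) (hx : Lnd X (θ + kk) x) : Fl x.rev y := by
  obtain ⟨hy0, hye, t, ht, htp, hts⟩ := hy
  obtain ⟨hx0, hxe, r, hr, hrp, hrs⟩ := hx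
  rw [ee_add_kk _ hk] at hxe hrp
  have hθ : ee x.rev.th = ee θ := by rw [St.rev_th]; exact (neg_injective hxe).symm
  refine ⟨(St.rev_Ok x).mpr hx0, hy0, by rw [hθ]; exact hye, r + t, by linarith, ?_, ?_⟩
  · rw [hθ, St.rev_pos, htp, hrp, add_smul, smul_neg]; abel
  · intro s hs
    rw [hθ, St.rev_pos, hrp]
    rcases lt_trichotomy s r with h | h | h
    · have h1 := hrs (r - s) ⟨by linarith, by linarith [hs.1]⟩
      have h2 : X + r • -ee θ + s • ee θ = X + (r - s) • ee (θ + kk) := by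
        rw [ee_add_kk _ hk, sub_smul, smul_neg, smul_neg]; abel
      rw [h2]; exact h1
    · have h2 : X + r • -ee θ + s • ee θ = X := by
        rw [h, smul_neg]; abel
      rw [h2]; exact hX
    · have h1 := hts (s - r) ⟨by linarith, by linarith [hs.2]⟩
      have h2 : X + r • -ee θ + s • ee θ = X + (s - r) • ee θ := by
        rw [sub_smul, smul_neg]; abel
      rw [h2]; exact h1

lemma angle_eq {a b η : ℝ} (h : ee a = ee b) (ha : |a - η| < Real.pi / 2)
    (hb : |b - η| < Real.pi / 2) : a = b := by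
  have h1 := (ee_eq_ee_iff a b).mp h
  obtain ⟨ha1, ha2⟩ := abs_lt.mp ha
  obtain ⟨hb1, hb2⟩ := abs_lt.mp hb
  have hpi := Real.pi_pos
  have h2 := (Real.cos_eq_one_iff_of_lt_of_lt (by linarith) (by linarith)).mp h1
  linarith

lemma fam_comp {i : S.ι} {p q p' q' : ℝ} {x : ℝ → St S} (h : Fam i p q x) {g : ℝ → ℝ}
    (hg : Continuous g) (hm : MapsTo g (Icc p' q') (Icc p q)) : Fam i p' q' (fun l => x (g l)) :=
  ⟨fun l hl => h.arc _ (hm hl), fun l hl => h.ok _ (hm hl), h.cu.comp hg.continuousOn hm,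
    h.cφ.comp hg.continuousOn hm⟩

lemma fam_rev {i : S.ι} {p q : ℝ} {x : ℝ → St S} (h : Fam i p q x) :
    Fam i p q (fun l => (x l).rev) :=
  ⟨fun l hl => h.arc l hl, fun l hl => (St.rev_Ok _).mpr (h.ok l hl), h.cu, h.cφ.neg⟩

lemma ma_comp {p q p' q' : ℝ} {f g : ℝ → ℝ}
    (h : MonotoneOn f (Icc p q) ∨ AntitoneOn f (Icc p q)) (hg : Monotone g)
    (hm : MapsTo g (Icc p' q') (Icc p q)) :
    MonotoneOn (fun l => f (g l)) (Icc p' q') ∨ AntitoneOn (fun l => f (g l)) (Icc p' q') := by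
  rcases h with h | h
  · exact Or.inl fun a ha b hb hab => h (hm ha) (hm hb) (hg hab)
  · exact Or.inr fun a ha b hb hab => h (hm ha) (hm hb) (hg hab)

lemma ma_sub {s : Set ℝ} {f g : ℝ → ℝ} (c : ℝ) (h : MonotoneOn f s ∨ AntitoneOn f s)
    (hg : ∀ l ∈ s, f l = g l + c) : MonotoneOn g s ∨ AntitoneOn g s := by
  rcases h with h | h
  · refine Or.inl fun a ha b hb hab => ?_
    have h1 := h ha hb hab
    rw [hg a ha, hg b hb] at h1
    linarith
  · refine Or.inr fun a ha b hb hab => ?_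
    have h1 := h ha hb hab
    rw [hg a ha, hg b hb] at h1
    linarith

/-- One half of the family: the fan followed by the forward family. -/
lemma half (hF : G_FAN S) (hI : G_INTF S) (n : ℕ) (w : ℕ → S.ι) (z z' : ℕ → St S) (X : ℂ)
    (θ0 θ1 kk : ℝ) (hX : X ∈ S.Y) (h01 : θ0 < θ1) (hpi : θ1 - θ0 < Real.pi)
    (hz : Cyl n w z) (hz' : Cyl n w z') (h0 : Lnd X θ0 (z 0)) (h1 : Lnd X θ1 (z' 0))
    (hk : Real.cos kk = -1) (hb : (z 0).bk = θ0 + kk) (hb' : (z' 0).bk = θ1 + kk)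
    (hu : (z' 0).u < (z 0).u) :
    ∃ Z : ℝ → ℕ → St S, (∀ l ∈ Icc θ0 θ1, Cyl n w (Z l) ∧ Lnd X l (Z l 0)) ∧
      (∀ k ≤ n, Z θ0 k = z k ∧ Z θ1 k = z' k) ∧
      ∀ k ≤ n, Fam (w k) θ0 θ1 (fun l => Z l k) ∧
        (MonotoneOn (fun l => (Z l k).u) (Icc θ0 θ1) ∨
          AntitoneOn (fun l => (Z l k).u) (Icc θ0 θ1)) ∧
        (MonotoneOn (fun l => (Z l k).th) (Icc θ0 θ1) ∨
          AntitoneOn (fun l => (Z l k).th) (Icc θ0 θ1)) := by
  have hi : (z 0).i = w 0 := hz.2 0 (Nat.zero_le n)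
  have hi' : (z' 0).i = w 0 := hz'.2 0 (Nat.zero_le n)
  obtain ⟨y, y0, y1, yF, yL, yu, yt⟩ := hF X θ0 θ1 kk (z 0) (z' 0) hX h01 hpi h0 h1
    (hi.trans hi'.symm) hk hb hb' hu
  rw [hi] at yF
  obtain ⟨Z, hZ, hZe, hZF⟩ := hI n w θ0 θ1 y z z' h01 yF
    (Or.inr ⟨yu.antitoneOn, yt.antitoneOn, fun _ hl _ hl' hll => Or.inl (yu hl hl' hll)⟩)
    hz hz' y0.symm y1.symm
  refine ⟨Z, fun l hl => ⟨(hZ l hl).1, by rw [(hZ l hl).2]; exact yL l hl⟩, hZe, fun k hk' => ?_⟩
  refine ⟨(hZF k hk').1, ?_⟩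
  rcases Nat.eq_zero_or_pos k with hk0 | hk0
  · subst hk0
    refine ⟨Or.inr fun a ha b hb hab => ?_, Or.inr fun a ha b hb hab => ?_⟩
    · change (Z b 0).u ≤ (Z a 0).u
      rw [(hZ a ha).2, (hZ b hb).2]
      exact yu.antitoneOn ha hb hab
    · change (Z b 0).th ≤ (Z a 0).th
      rw [(hZ a ha).2, (hZ b hb).2]
      exact yt.antitoneOn ha hb hab
  · rcases (hZF k hk').2 hk0 with h | h
    · exact ⟨Or.inl h.1.monotoneOn, Or.inl h.2.monotoneOn⟩
    · exact ⟨Or.inr h.1.antitoneOn, Or.inr h.2.antitoneOn⟩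

theorem thm (S : Sys) : G_FLB S → G_LIFT S → G_FAN S → G_INTF S → G_XFAM S := by
  intro hB hL hF hI n w z z' k X hkn hz hz' hX hX' hu hth hu1
  have hfl : Fl (z k) (z (k + 1)) := hz.1.2 k hkn
  have hfl' : Fl (z' k) (z' (k + 1)) := hz'.1.2 k hkn
  obtain ⟨η, c, kk, hkk, -, -, -, -, hlift⟩ := hL (w k) (w (k + 1)) (by
    rw [← hz.2 k hkn.le, ← hz.2 (k + 1) hkn]; exact hB.1 _ _ hfl)
  obtain ⟨hη0, hb0⟩ := hlift _ _ hfl (hz.2 k hkn.le) (hz.2 (k + 1) hkn)
  obtain ⟨hη1, hb1⟩ := hlift _ _ hfl' (hz'.2 k hkn.le) (hz'.2 (k + 1) hkn)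
  obtain ⟨hXY, hLf, hLb⟩ := fl_split hfl hX
  obtain ⟨-, hLf', hLb'⟩ := fl_split hfl' hX'
  set θ0 := (z k).th with hθ0
  set θ1 := (z' k).th with hθ1
  have hpi : θ1 - θ0 < Real.pi := by
    have h1 := (abs_lt.mp hη0).1
    have h2 := (abs_lt.mp hη1).2
    linarith
  -- forward half
  obtain ⟨Zf, hZf, hZfe, hZfF⟩ := half hF hI (n - (k + 1)) (sh (k + 1) w)
    (fun m => z (k + 1 + m)) (fun m => z' (k + 1 + m)) X θ0 θ1 kk hXY hth hpi
    (hz.shift (by omega)) (hz'.shift (by omega)) hLf hLf' hkk hb0 hb1 hu1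
  -- backward half
  have hkk' : Real.cos (-kk) = -1 := by rw [Real.cos_neg, hkk]
  obtain ⟨Zb, hZb, hZbe, hZbF⟩ := half hF hI k (fun m => w (k - m))
    (fun m => (z (k - m)).rev) (fun m => (z' (k - m)).rev) X (θ0 + kk) (θ1 + kk) (-kk) hXY
    (by linarith) (by linarith)
    (hz.mono hkn.le).rev (hz'.mono hkn.le).rev (hLb kk hkk) (hLb' kk hkk) hkk'
    (by simp [← hθ0]) (by simp [← hθ1]) (by simpa using hu)
  -- reparametrization
  have hgm : Monotone (fun l : ℝ => θ0 + l * (θ1 - θ0)) := fun a b hab => by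
    have : 0 ≤ (b - a) * (θ1 - θ0) := mul_nonneg (by linarith) (by linarith)
    change θ0 + a * (θ1 - θ0) ≤ θ0 + b * (θ1 - θ0)
    nlinarith
  have hgc : Continuous (fun l : ℝ => θ0 + l * (θ1 - θ0)) := by fun_prop
  have hgM : MapsTo (fun l : ℝ => θ0 + l * (θ1 - θ0)) (Icc 0 1) (Icc θ0 θ1) := fun l hl => by
    have h1 : 0 ≤ l * (θ1 - θ0) := mul_nonneg hl.1 (by linarith)
    have h2 : 0 ≤ (1 - l) * (θ1 - θ0) := mul_nonneg (by linarith [hl.2]) (by linarith)
    exact ⟨by change θ0 ≤ θ0 + l * (θ1 - θ0); linarith,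
      by change θ0 + l * (θ1 - θ0) ≤ θ1; nlinarith⟩
  have hhm : Monotone (fun l : ℝ => θ0 + l * (θ1 - θ0) + kk) := fun a b hab =>
    add_le_add_left (hgm hab) kk
  have hhc : Continuous (fun l : ℝ => θ0 + l * (θ1 - θ0) + kk) := by fun_prop
  have hhM : MapsTo (fun l : ℝ => θ0 + l * (θ1 - θ0) + kk) (Icc 0 1)
      (Icc (θ0 + kk) (θ1 + kk)) := fun l hl =>
    ⟨by have := (hgM hl).1; change θ0 + kk ≤ θ0 + l * (θ1 - θ0) + kk; linarith,
      by have := (hgM hl).2; change θ0 + l * (θ1 - θ0) + kk ≤ θ1 + kk; linarith⟩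
  let Z : ℝ → ℕ → St S := fun l m =>
    if m ≤ k then (Zb (θ0 + l * (θ1 - θ0) + kk) (k - m)).rev
    else Zf (θ0 + l * (θ1 - θ0)) (m - (k + 1))
  have hZle : ∀ l m, m ≤ k → Z l m = (Zb (θ0 + l * (θ1 - θ0) + kk) (k - m)).rev :=
    fun l m hm => if_pos hm
  have hZgt : ∀ l m, k < m → Z l m = Zf (θ0 + l * (θ1 - θ0)) (m - (k + 1)) :=
    fun l m hm => if_neg (by omega)
  have hcyl : ∀ l ∈ Icc (0 : ℝ) 1, Cyl n w (Z l) := by
    intro l hl
    have hf := hZf _ (hgM hl)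
    have hb := hZb _ (hhM hl)
    have hbr := hb.1.rev
    refine ⟨⟨fun m hm => ?_, fun m hm => ?_⟩, fun m hm => ?_⟩
    · by_cases hmk : m ≤ k
      · rw [hZle l m hmk]; exact hbr.1.1 m hmk
      · rw [hZgt l m (by omega)]; exact hf.1.1.1 _ (by omega)
    · by_cases hmk : m + 1 ≤ k
      · rw [hZle l m (by omega), hZle l (m + 1) hmk]; exact hbr.1.2 m (by omega)
      · by_cases hmk' : m = k
        · subst hmk'
          rw [hZle l m le_rfl, hZgt l (m + 1) (by omega), Nat.sub_self, Nat.sub_self]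
          exact fl_join hkk hXY hf.2 hb.2
        · rw [hZgt l m (by omega), hZgt l (m + 1) (by omega)]
          have h1 := hf.1.1.2 (m - (k + 1)) (by omega)
          have h2 : m - (k + 1) + 1 = m + 1 - (k + 1) := by omega
          rw [h2] at h1
          exact h1
    · by_cases hmk : m ≤ k
      · rw [hZle l m hmk, St.rev_i, hb.1.2 (k - m) (by omega)]
        change w (k - (k - m)) = w m
        rw [Nat.sub_sub_self hmk]
      · rw [hZgt l m (by omega), hf.1.2 (m - (k + 1)) (by omega)]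
        unfold sh
        congr 1; omega
  refine ⟨Z, hcyl, fun m hm => ?_, fun m hm => ?_⟩
  · by_cases hmk : m ≤ k
    · rw [hZle 0 m hmk, hZle 1 m hmk]
      have h1 := hZbe (k - m) (by omega)
      have h2 : k - (k - m) = m := by omega
      simp only [h2] at h1
      have e0 : θ0 + 0 * (θ1 - θ0) + kk = θ0 + kk := by ring
      have e1 : θ0 + 1 * (θ1 - θ0) + kk = θ1 + kk := by ring
      rw [e0, e1, h1.1, h1.2, St.rev_rev, St.rev_rev]
      exact ⟨rfl, rfl⟩
    · rw [hZgt 0 m (by omega), hZgt 1 m (by omega)]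
      have h1 := hZfe (m - (k + 1)) (by omega)
      have h2 : k + 1 + (m - (k + 1)) = m := by omega
      simp only [h2] at h1
      have e0 : θ0 + 0 * (θ1 - θ0) = θ0 := by ring
      have e1 : θ0 + 1 * (θ1 - θ0) = θ1 := by ring
      rw [e0, e1]
      exact h1
  · by_cases hmk : m ≤ k
    · have hfam := hZbF (k - m) (by omega)
      have h2 : k - (k - m) = m := by omega
      simp only [h2] at hfam
      simp only [hZle _ m hmk]
      refine ⟨fam_rev (fam_comp hfam.1 hhc hhM), ma_comp hfam.2.1 hhm hhM, fun _ => ?_⟩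
      by_cases hmk' : m = k
      · subst hmk'
        refine Or.inl fun a ha b hb hab => ?_
        have key : ∀ l ∈ Icc (0 : ℝ) 1, (Zb (θ0 + l * (θ1 - θ0) + kk) (m - m)).rev.th =
            θ0 + l * (θ1 - θ0) := by
          intro l hl
          have h1 := (hcyl l hl).1.2 m hkn
          have h3 := hlift _ _ h1 ((hcyl l hl).2 m hkn.le) ((hcyl l hl).2 (m + 1) hkn)
          rw [hZle l m le_rfl] at h3
          refine angle_eq ?_ h3.1 ?_
          · have h4 := (hZb _ (hhM hl)).2.2.1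
            have h5 : ee (θ0 + l * (θ1 - θ0) + kk) = -ee (θ0 + l * (θ1 - θ0)) := ee_add_kk _ hkk
            rw [h5] at h4
            rw [St.rev_th, Nat.sub_self]
            exact (neg_injective h4).symm
          · have h4 := hgM hl
            have h5 := (abs_lt.mp hη0).1
            have h6 := (abs_lt.mp hη1).2
            rw [abs_lt]
            exact ⟨by linarith [h4.1], by linarith [h4.2]⟩
        change (Zb (θ0 + a * (θ1 - θ0) + kk) (m - m)).rev.th ≤
          (Zb (θ0 + b * (θ1 - θ0) + kk) (m - m)).rev.th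
        rw [key a ha, key b hb]
        exact hgm hab
      · have hm1 : m + 1 ≤ k := by omega
        obtain ⟨η', c', kk', -, -, -, -, -, hlift'⟩ := hL (w m) (w (m + 1)) (by
          rw [← hz.2 m hm, ← hz.2 (m + 1) (by omega)]; exact hB.1 _ _ (hz.1.2 m (by omega)))
        refine ma_sub kk' (ma_comp (hZbF (k - (m + 1)) (by omega)).2.2 hhm hhM) fun l hl => ?_
        have h1 := (hcyl l hl).1.2 m (by omega)
        have h3 := (hlift' _ _ h1 ((hcyl l hl).2 m hm) ((hcyl l hl).2 (m + 1) (by omega))).2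
        rw [hZle l m hmk, hZle l (m + 1) hm1, St.rev_bk] at h3
        exact h3
    · have hfam := hZfF (m - (k + 1)) (by omega)
      have h2 : sh (k + 1) w (m - (k + 1)) = w m := by unfold sh; congr 1; omega
      rw [h2] at hfam
      simp only [hZgt _ m (show k < m by omega)]
      exact ⟨fam_comp hfam.1 hgc hgM, ma_comp hfam.2.1 hgm hgM, fun _ => ma_comp hfam.2.2 hgm hgM⟩

end Pool.Agent.Helper42.DB.PkXFAM
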