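import Mathlib
import Pool.Agent.Helper42.DB.Goals3

set_option autoImplicit false

/-!
# Dispersing billiards (MP_48f005_an): packet SEP

Small arcs of the boundary of a table which do not overlap are separated by a line.
-/

namespace Pool.Agent.Helper42.DB.PkSEP

open Set Filter Topology

lemma hasDerivAt_dt (c : Crv) (e : ℂ) (u : ℝ) :
    HasDerivAt (fun t => dt e (c.G t)) (c.R u * dt e (tt u)) u := by
  have h := c.der u
  have h1 : HasDerivAt (fun t => (c.G t).re) ((c.R u • tt u).re) u :=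
    Complex.reCLM.hasFDerivAt.comp_hasDerivAt u h
  have h2 : HasDerivAt (fun t => (c.G t).im) ((c.R u • tt u).im) u :=
    Complex.imCLM.hasFDerivAt.comp_hasDerivAt u h
  have h3 := (h1.const_mul e.re).add (h2.const_mul e.im)
  have h4 : e.re * (c.R u • tt u).re + e.im * (c.R u • tt u).im = c.R u * dt e (tt u) := by
    simp only [dt, Complex.smul_re, Complex.smul_im, smul_eq_mul]; ring
  rw [h4] at h3
  exact h3

lemma dt_lt (c : Crv) (hR : ∀ u, 0 < c.R u) (e : ℂ) {p q : ℝ} (hpq : p < q)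
    (h : ∀ u ∈ Ioo p q, 0 < dt e (tt u)) : dt e (c.G p) < dt e (c.G q) := by
  have hm : StrictMonoOn (fun t => dt e (c.G t)) (Icc p q) := by
    apply strictMonoOn_of_deriv_pos (convex_Icc p q)
    · exact (continuous_dt continuous_const c.continuous).continuousOn
    · intro u hu
      rw [interior_Icc] at hu
      rw [(hasDerivAt_dt c e u).deriv]
      exact mul_pos (hR u) (h u hu)
  exact hm (left_mem_Icc.mpr hpq.le) (right_mem_Icc.mpr hpq.le) hpq

lemma dt_tt_tt (a b : ℝ) : dt (tt a) (tt b) = Real.cos (b - a) := by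
  simp only [dt, tt_re, tt_im, Real.cos_sub]; ring

lemma ee_sub (a : ℝ) : ee (a - Real.pi / 2) = -tt a := by
  apply Complex.ext <;> simp [Real.cos_sub_pi_div_two, Real.sin_sub_pi_div_two]

lemma germ (c : Crv) (hR : ∀ u, 0 < c.R u) (e : ℂ) (u0 s : ℝ) (hs : s = 1 ∨ s = -1)
    (h : dt e (s • tt u0) < 0) :
    ∀ᶠ u in 𝓝 u0, 0 < s * (u - u0) → dt e (c.G u) < dt e (c.G u0) := by
  have hc : Continuous fun u => dt e (s • tt u) :=
    continuous_dt continuous_const (continuous_tt.const_smul s)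
  have hev : ∀ᶠ u in 𝓝 u0, dt e (s • tt u) < 0 := (hc.tendsto u0).eventually_lt_const h
  obtain ⟨ε, hε, hball⟩ := Metric.eventually_nhds_iff_ball.mp hev
  filter_upwards [Metric.ball_mem_nhds u0 hε] with u hu hsu
  rw [Metric.mem_ball, Real.dist_eq, abs_lt] at hu
  rcases hs with rfl | rfl
  · have hlt : u0 < u := by linarith
    have h1 := dt_lt c hR (-e) hlt fun t ht => by
      have h2 := hball t (by
        rw [Metric.mem_ball, Real.dist_eq, abs_lt]
        exact ⟨by linarith [ht.1], by linarith [ht.2, hu.2]⟩)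
      rw [one_smul] at h2
      rw [dt_neg_left]; linarith
    rw [dt_neg_left, dt_neg_left] at h1; linarith
  · have hlt : u < u0 := by linarith
    exact dt_lt c hR e hlt fun t ht => by
      have h2 := hball t (by
        rw [Metric.mem_ball, Real.dist_eq, abs_lt]
        exact ⟨by linarith [ht.1, hu.1], by linarith [ht.2]⟩)
      rw [neg_one_smul, dt_neg_right] at h2
      linarith

lemma behind (c : Crv) (hR : ∀ u, 0 < c.R u) (u0 : ℝ) :
    ∀ᶠ u in 𝓝 u0, u ≠ u0 → dt (ee u0) (c.G u) < dt (ee u0) (c.G u0) := by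
  have hpi := Real.pi_gt_three
  filter_upwards [Metric.ball_mem_nhds u0 one_pos] with u hu hne
  rw [Metric.mem_ball, Real.dist_eq, abs_lt] at hu
  rcases lt_or_gt_of_ne hne with hlt | hlt
  · refine dt_lt c hR (ee u0) hlt fun t ht => ?_
    rw [dt_ee_tt, ← Real.sin_neg]
    exact Real.sin_pos_of_pos_of_lt_pi (by linarith [ht.2]) (by linarith [ht.1, hu.1])
  · have h1 := dt_lt c hR (-ee u0) hlt fun t ht => by
      rw [dt_neg_left, dt_ee_tt, neg_neg]
      exact Real.sin_pos_of_pos_of_lt_pi (by linarith [ht.1]) (by linarith [ht.2, hu.2])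
    rw [dt_neg_left, dt_neg_left] at h1; linarith

/-- The conclusion. -/
def Cc (C : CTab) (i : C.ι) (a b : ℝ) (j : C.ι) (a' b' : ℝ) : Prop :=
  ∃ η c : ℝ, (∀ u ∈ Ioo a b, dt (ee η) (C.g i u) < c) ∧
    (∀ v ∈ Ioo a' b', c < dt (ee η) (C.g j v)) ∧
    (∀ u ∈ Icc a b, ee u ≠ -ee η) ∧ (∀ v ∈ Icc a' b', ee v ≠ ee η)

variable {C : CTab}

lemma R_pos (i : C.ι) (u : ℝ) : 0 < (C.crv i).R u := C.r0_pos.trans_le (C.le_R i u)

lemma cos_pos' {x y u0 : ℝ} (hx : |x - u0| < 1 / 8) (hy : |y - u0| < 1 / 8) :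
    0 < Real.cos (x - y) := by
  have hpi := Real.pi_gt_three
  rw [abs_lt] at hx hy
  exact Real.cos_pos_of_mem_Ioo ⟨by linarith [hx.1, hy.2], by linarith [hx.2, hy.1]⟩

lemma ee_ne_tt {u u0 : ℝ} (h : |u - u0| < 1 / 8) : ee u ≠ tt u0 ∧ ee u ≠ -tt u0 := by
  have h1 : 0 < dt (ee u0) (ee u) := by
    rw [dt_ee_ee]; exact cos_pos' h (by simp)
  have h2 : dt (ee u0) (tt u0) = 0 := by rw [dt_ee_tt]; simp
  refine ⟨fun h3 => ?_, fun h3 => ?_⟩
  · rw [h3, h2] at h1; exact lt_irrefl _ h1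
  · rw [h3, dt_neg_right, h2, neg_zero] at h1; exact lt_irrefl _ h1

lemma near (i : C.ι) {u0 a b a' b' : ℝ} (ha : |a - u0| < 1 / 8) (hb : |b - u0| < 1 / 8)
    (ha' : |a' - u0| < 1 / 8) (hb' : |b' - u0| < 1 / 8)
    (h : b ≤ a' ∨ b' ≤ a) : Cc C i a b i a' b' := by
  have hI : ∀ u ∈ Icc a b, |u - u0| < 1 / 8 := fun u hu => by
    rw [abs_lt] at *
    exact ⟨by linarith [hu.1, ha.1], by linarith [hu.2, hb.2]⟩
  have hJ : ∀ u ∈ Icc a' b', |u - u0| < 1 / 8 := fun u hu => by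
    rw [abs_lt] at *
    exact ⟨by linarith [hu.1, ha'.1], by linarith [hu.2, hb'.2]⟩
  -- the general monotonicity
  have hmono : ∀ x y : ℝ, |x - u0| < 1 / 8 → |y - u0| < 1 / 8 → x < y →
      dt (tt u0) (C.g i x) < dt (tt u0) (C.g i y) := by
    intro x y hx hy hxy
    refine dt_lt (C.crv i) (R_pos i) (tt u0) hxy fun t ht => ?_
    rw [dt_tt_tt]
    refine cos_pos' (u0 := u0) ?_ (by simp)
    rw [abs_lt] at *
    exact ⟨by linarith [ht.1, hx.1], by linarith [ht.2, hy.2]⟩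
  rcases h with h | h
  · refine ⟨u0 + Real.pi / 2, dt (ee (u0 + Real.pi / 2)) (C.g i b), ?_, ?_, ?_, ?_⟩
    · intro u hu
      rw [← tt_eq_ee]
      exact hmono u b (hI u ⟨hu.1.le, hu.2.le⟩) hb hu.2
    · intro v hv
      rw [← tt_eq_ee]
      exact hmono b v hb (hJ v ⟨hv.1.le, hv.2.le⟩) (h.trans_lt hv.1)
    · intro u hu
      rw [← tt_eq_ee]
      exact (ee_ne_tt (hI u hu)).2
    · intro v hv
      rw [← tt_eq_ee]
      exact (ee_ne_tt (hJ v hv)).1
  · refine ⟨u0 - Real.pi / 2, dt (ee (u0 - Real.pi / 2)) (C.g i a), ?_, ?_, ?_, ?_⟩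
    · intro u hu
      rw [ee_sub, dt_neg_left, dt_neg_left]
      exact neg_lt_neg (hmono a u ha (hI u ⟨hu.1.le, hu.2.le⟩) hu.1)
    · intro v hv
      rw [ee_sub, dt_neg_left, dt_neg_left]
      exact neg_lt_neg (hmono v a (hJ v ⟨hv.1.le, hv.2.le⟩) ha (hv.2.trans_le h))
    · intro u hu
      rw [ee_sub, neg_neg]
      exact (ee_ne_tt (hI u hu)).1
    · intro v hv
      rw [ee_sub]
      exact (ee_ne_tt (hJ v hv)).2

/-- The curve and the normal do not change under the shift by `s`. -/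
def Per (C : CTab) (i : C.ι) (s : ℝ) : Prop :=
  (∀ u, C.g i (u - s) = C.g i u) ∧ ∀ u, ee (u - s) = ee u

lemma per_zero (i : C.ι) : Per C i 0 := ⟨fun u => by rw [sub_zero], fun u => by rw [sub_zero]⟩

lemma ee_periodic : Function.Periodic ee (2 * Real.pi) := fun u => by
  apply Complex.ext <;> simp

lemma per_mul (i : C.ι) (h : C.closed i) (m : ℤ) : Per C i (m * C.P i) := by
  obtain ⟨⟨k, hk⟩, hg⟩ := C.per i h
  have h1 : Function.Periodic (C.g i) (C.P i) := fun u => hg u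
  have h2 : Function.Periodic ee (C.P i) := by
    have h3 := ee_periodic.int_mul k
    have h4 : (k : ℝ) * (2 * Real.pi) = C.P i := by rw [CTab.P, hk]; ring
    rw [h4] at h3
    exact h3
  exact ⟨fun u => (h1.int_mul m).sub_eq u, fun u => (h2.int_mul m).sub_eq u⟩

lemma cc_shift {i j : C.ι} {s t a b a' b' : ℝ} (hs : Per C i s) (ht : Per C j t)
    (h : Cc C i (a - s) (b - s) j (a' - t) (b' - t)) : Cc C i a b j a' b' := by
  obtain ⟨η, c, h1, h2, h3, h4⟩ := h
  refine ⟨η, c, fun u hu => ?_, fun v hv => ?_, fun u hu => ?_, fun v hv => ?_⟩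
  · rw [← hs.1 u]; exact h1 _ ⟨by linarith [hu.1], by linarith [hu.2]⟩
  · rw [← ht.1 v]; exact h2 _ ⟨by linarith [hv.1], by linarith [hv.2]⟩
  · rw [← hs.2 u]; exact h3 _ ⟨by linarith [hu.1], by linarith [hu.2]⟩
  · rw [← ht.2 v]; exact h4 _ ⟨by linarith [hv.1], by linarith [hv.2]⟩

/-- The local statement. -/
def Loc (C : CTab) (i j : C.ι) (u0 v0 : ℝ) : Prop :=
  ∃ ε : ℝ, 0 < ε ∧ ∀ a b a' b' : ℝ, |a - u0| < ε → |b - u0| < ε → |a' - v0| < ε → |b' - v0| < ε →
    C.Sub i a b → C.Sub j a' b' → C.Apart i a b j a' b' → Cc C i a b j a' b'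

/-- A fixed line works for all small intervals. -/
lemma loc_of_line {i j : C.ι} {u0 v0 : ℝ} (η c : ℝ)
    (h1 : ∀ᶠ u in 𝓝 u0, (C.closed i ∨ u ∈ Ioo (C.A i) (C.B i)) → dt (ee η) (C.g i u) < c)
    (h2 : ∀ᶠ v in 𝓝 v0, (C.closed j ∨ v ∈ Ioo (C.A j) (C.B j)) → c < dt (ee η) (C.g j v))
    (h3 : ee u0 ≠ -ee η) (h4 : ee v0 ≠ ee η) : Loc C i j u0 v0 := by
  have h3' : ∀ᶠ u in 𝓝 u0, ee u ≠ -ee η := continuous_ee.continuousAt.eventually_ne h3
  have h4' : ∀ᶠ v in 𝓝 v0, ee v ≠ ee η := continuous_ee.continuousAt.eventually_ne h4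
  obtain ⟨ε, hε, hb⟩ := Metric.eventually_nhds_iff_ball.mp (h1.and h3')
  obtain ⟨ε', hε', hb'⟩ := Metric.eventually_nhds_iff_ball.mp (h2.and h4')
  refine ⟨min ε ε', lt_min hε hε', ?_⟩
  intro a b a' b' ha hb1 ha' hb1' hS hS' _
  have hI : ∀ u ∈ Icc a b, u ∈ Metric.ball u0 ε := fun u hu => by
    rw [Metric.mem_ball, Real.dist_eq, abs_lt]
    have h5 := (abs_lt.mp (ha.trans_le (min_le_left _ _))).1
    have h6 := (abs_lt.mp (hb1.trans_le (min_le_left _ _))).2
    exact ⟨by linarith [hu.1], by linarith [hu.2]⟩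
  have hJ : ∀ v ∈ Icc a' b', v ∈ Metric.ball v0 ε' := fun v hv => by
    rw [Metric.mem_ball, Real.dist_eq, abs_lt]
    have h5 := (abs_lt.mp (ha'.trans_le (min_le_right _ _))).1
    have h6 := (abs_lt.mp (hb1'.trans_le (min_le_right _ _))).2
    exact ⟨by linarith [hv.1], by linarith [hv.2]⟩
  refine ⟨η, c, fun u hu => ?_, fun v hv => ?_, fun u hu => (hb u (hI u hu)).2,
    fun v hv => (hb' v (hJ v hv)).2⟩
  · refine (hb u (hI u ⟨hu.1.le, hu.2.le⟩)).1 ?_
    by_cases hc : C.closed i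
    · exact Or.inl hc
    · exact Or.inr ⟨(hS.2 hc).1.trans_lt hu.1, hu.2.trans_le (hS.2 hc).2⟩
  · refine (hb' v (hJ v ⟨hv.1.le, hv.2.le⟩)).1 ?_
    by_cases hc : C.closed j
    · exact Or.inl hc
    · exact Or.inr ⟨(hS'.2 hc).1.trans_lt hv.1, hv.2.trans_le (hS'.2 hc).2⟩

lemma ee_ne_of_abs {x y : ℝ} (h : x ≠ y) (h1 : |x - y| ≤ 2) : ee x ≠ ee y := by
  have hpi := Real.pi_gt_three
  intro h2
  have h3 := (ee_eq_ee_iff x y).mp h2
  rw [abs_le] at h1
  exact h (sub_eq_zero.mp ((Real.cos_eq_one_iff_of_lt_of_lt (by linarith [h1.1])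
    (by linarith [h1.2])).mp h3))

lemma exists_dir (D : ℂ) (hD : D ≠ 0) (x y : ℂ) :
    ∃ η : ℝ, 0 < dt (ee η) D ∧ x ≠ -ee η ∧ y ≠ ee η := by
  by_contra hcon
  push Not at hcon
  have key : ∀ t : ℝ, |t| ≤ 1 → x = -ee (D.arg + t) ∨ y = ee (D.arg + t) := by
    intro t ht
    by_contra h
    push Not at h
    have hD' : D = ‖D‖ • ee D.arg := by
      apply Complex.ext
      · simp [Complex.norm_mul_cos_arg]
      · simp [Complex.norm_mul_sin_arg]
    have h1 : 0 < dt (ee (D.arg + t)) D := by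
      rw [hD', dt_smul_right, dt_ee_ee]
      refine mul_pos (norm_pos_iff.mpr hD) ?_
      rw [abs_le] at ht
      have hpi := Real.pi_gt_three
      rw [← hD']
      exact Real.cos_pos_of_mem_Ioo ⟨by linarith [ht.1, ht.2], by linarith [ht.1, ht.2]⟩
    exact h.2 (hcon _ h1 h.1)
  have hne : ∀ s t : ℝ, s ≠ t → |s - t| ≤ 2 → ee (D.arg + s) ≠ ee (D.arg + t) := by
    intro s t hst h2
    exact ee_ne_of_abs (fun h => hst (by linarith)) (by
      have : D.arg + s - (D.arg + t) = s - t := by ring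
      rw [this]; exact h2)
  have n1 := hne (-1) 0 (by norm_num) (by norm_num)
  have n2 := hne 0 1 (by norm_num) (by norm_num)
  have n3 := hne (-1) 1 (by norm_num) (by norm_num)
  rcases key (-1) (by norm_num) with h1 | h1 <;> rcases key 0 (by norm_num) with h2 | h2 <;>
    rcases key 1 (by norm_num) with h3 | h3
  · exact n1 (neg_injective (h1.symm.trans h2))
  · exact n1 (neg_injective (h1.symm.trans h2))
  · exact n3 (neg_injective (h1.symm.trans h3))
  · exact n2 (h2.symm.trans h3)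
  · exact n2 (neg_injective (h2.symm.trans h3))
  · exact n3 (h1.symm.trans h3)
  · exact n1 (h1.symm.trans h2)
  · exact n1 (h1.symm.trans h2)

/-- The case of different points. -/
lemma loc_far {i j : C.ι} {u0 v0 : ℝ} (h : C.g i u0 ≠ C.g j v0) : Loc C i j u0 v0 := by
  obtain ⟨η, h1, h2, h3⟩ := exists_dir (C.g j v0 - C.g i u0) (sub_ne_zero.mpr h.symm)
    (ee u0) (ee v0)
  rw [dt_sub_right] at h1
  have hc1 : Continuous fun u => dt (ee η) (C.g i u) :=
    continuous_dt continuous_const (C.crv i).continuous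
  have hc2 : Continuous fun u => dt (ee η) (C.g j u) :=
    continuous_dt continuous_const (C.crv j).continuous
  refine loc_of_line η ((dt (ee η) (C.g i u0) + dt (ee η) (C.g j v0)) / 2) ?_ ?_ h2 h3
  · exact ((hc1.tendsto u0).eventually_lt_const (by linarith)).mono fun u hu _ => hu
  · exact ((hc2.tendsto v0).eventually_const_lt (by linarith)).mono fun u hu _ => hu

/-- The case of the same point of the same component. -/
lemma loc_same {i : C.ι} {u0 v0 : ℝ} (m : ℤ) (hm : ¬C.closed i → m = 0)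
    (h : v0 = u0 + m * C.P i) : Loc C i i u0 v0 := by
  refine ⟨1 / 8, by norm_num, ?_⟩
  intro a b a' b' ha hb ha' hb' hS hS' hA
  have hP : 0 < C.P i := sub_pos.mpr (C.hAB i)
  have hper : Per C i (m * C.P i) := by
    by_cases hc : C.closed i
    · exact per_mul i hc m
    · rw [hm hc, Int.cast_zero, zero_mul]; exact per_zero i
  refine cc_shift (per_zero i) hper ?_
  rw [sub_zero, sub_zero]
  refine near i ha hb ?_ ?_ ?_
  · rw [h] at ha'
    have h1 : a' - m * C.P i - u0 = a' - (u0 + m * C.P i) := by ring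
    rw [h1]; exact ha'
  · rw [h] at hb'
    have h1 : b' - m * C.P i - u0 = b' - (u0 + m * C.P i) := by ring
    rw [h1]; exact hb'
  · rcases hA with hA | ⟨hc, hA⟩ | ⟨hc, hA⟩
    · exact absurd rfl hA
    · rw [hm hc, Int.cast_zero, zero_mul, sub_zero, sub_zero]; exact hA
    · rcases hA with ⟨h1, h2⟩ | ⟨h1, h2⟩
      · rcases le_or_gt m 0 with hm0 | hm0
        · left
          have h3 : (m : ℝ) * C.P i ≤ 0 :=
            mul_nonpos_of_nonpos_of_nonneg (by exact_mod_cast hm0) hP.le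
          linarith
        · right
          have h3 : (1 : ℝ) * C.P i ≤ (m : ℝ) * C.P i :=
            mul_le_mul_of_nonneg_right (by exact_mod_cast hm0) hP.le
          linarith
      · rcases le_or_gt 0 m with hm0 | hm0
        · right
          have h3 : 0 ≤ (m : ℝ) * C.P i := mul_nonneg (by exact_mod_cast hm0) hP.le
          linarith
        · left
          have h3 : (m : ℝ) * C.P i ≤ (-1 : ℝ) * C.P i :=
            mul_le_mul_of_nonneg_right (by exact_mod_cast (by omega : m ≤ -1)) hP.le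
          linarith

lemma ee_of_tt {a b : ℝ} (h : tt a = tt b) : ee a = ee b := by
  have h1 := congrArg Complex.re h
  have h2 := congrArg Complex.im h
  simp only [tt_re, tt_im] at h1 h2
  apply Complex.ext
  · simpa using h2
  · simpa using h1

lemma ee_of_tt_neg {a b : ℝ} (h : tt a = -tt b) : ee a = -ee b := by
  have h1 := congrArg Complex.re h
  have h2 := congrArg Complex.im h
  simp only [tt_re, tt_im, Complex.neg_re, Complex.neg_im, neg_neg] at h1 h2
  apply Complex.ext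
  · simpa using h2
  · simp only [ee_im, Complex.neg_im]; linarith

lemma dt_unit_lt {x y : ℂ} (hx : ‖x‖ = 1) (hy : ‖y‖ = 1) (h : x ≠ y) : dt x y < 1 := by
  have h1 : 0 < dt (x - y) (x - y) := by
    rw [dt_self]; exact pow_pos (norm_pos_iff.mpr (sub_ne_zero.mpr h)) 2
  rw [dt_sub_left, dt_sub_right, dt_sub_right, dt_self, dt_self, hx, hy, dt_comm y x] at h1
  linarith

/-- The case of a corner. -/
lemma loc_corner (hR2 : G_R2 C) {i j : C.ι} {u0 v0 s t : ℝ} (hci : ¬C.closed i)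
    (hcj : ¬C.closed j)
    (hs : (s = 1 ∧ u0 = C.A i) ∨ (s = -1 ∧ u0 = C.B i))
    (ht : (t = 1 ∧ v0 = C.A j) ∨ (t = -1 ∧ v0 = C.B j))
    (hne : ¬(i = j ∧ u0 = v0)) (hg : C.g i u0 = C.g j v0) : Loc C i j u0 v0 := by
  have hs1 : s = 1 ∨ s = -1 := hs.imp And.left And.left
  have ht1 : t = 1 ∨ t = -1 := ht.imp And.left And.left
  have hsu : ∀ u ∈ Ioo (C.A i) (C.B i), 0 < s * (u - u0) := by
    intro u hu
    rcases hs with ⟨h1, h2⟩ | ⟨h1, h2⟩
    · rw [h1, h2]; linarith [hu.1]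
    · rw [h1, h2]; linarith [hu.2]
  have htv : ∀ v ∈ Ioo (C.A j) (C.B j), 0 < t * (v - v0) := by
    intro v hv
    rcases ht with ⟨h1, h2⟩ | ⟨h1, h2⟩
    · rw [h1, h2]; linarith [hv.1]
    · rw [h1, h2]; linarith [hv.2]
  have hns : ‖s • tt u0‖ = 1 := by
    rcases hs1 with h | h <;> simp [h]
  have hnt : ‖t • tt v0‖ = 1 := by
    rcases ht1 with h | h <;> simp [h]
  by_cases hd : s • tt u0 = t • tt v0
  · -- opposite types
    have hts : t = -s := by
      rcases hs with ⟨h1, h2⟩ | ⟨h1, h2⟩ <;> rcases ht with ⟨h3, h4⟩ | ⟨h3, h4⟩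
      · exfalso
        rw [h1, h3, one_smul, one_smul] at hd
        have h5 := ee_of_tt hd
        rw [h2, h4] at h5 hg
        refine (hR2 i j fun hij => ?_).1 hg h5
        subst hij
        exact hne ⟨rfl, by rw [h2, h4]⟩
      · rw [h1, h3]
      · rw [h1, h3]; norm_num
      · exfalso
        rw [h1, h3, neg_one_smul, neg_one_smul] at hd
        have h5 := ee_of_tt (neg_injective hd)
        rw [h2, h4] at h5 hg
        refine (hR2 i j fun hij => ?_).2 hg h5
        subst hij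
        exact hne ⟨rfl, by rw [h2, h4]⟩
    have hee : ee v0 = -ee u0 := by
      apply ee_of_tt_neg
      have h0 : s ≠ 0 := by rcases hs1 with h | h <;> rw [h] <;> norm_num
      have h1 : s • (tt v0 + tt u0) = 0 := by
        rw [smul_add, hd, hts, neg_smul]; abel
      have h2 := (smul_eq_zero.mp h1).resolve_left h0
      exact eq_neg_of_add_eq_zero_left h2
    have hee2 : ee u0 ≠ -ee u0 := fun h => by
      have h1 : ee u0 = 0 := by
        have h2 : (2 : ℝ) • ee u0 = 0 := by rw [two_smul]; nth_rewrite 1 [h]; abel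
        exact (smul_eq_zero.mp h2).resolve_left (by norm_num)
      exact ee_ne_zero u0 h1
    refine loc_of_line u0 (dt (ee u0) (C.g i u0)) ?_ ?_ hee2 ?_
    · filter_upwards [behind (C.crv i) (R_pos i) u0] with u hu h
      refine hu fun h1 => ?_
      have h2 := hsu u (h.resolve_left hci)
      rw [h1] at h2; simp at h2
    · filter_upwards [behind (C.crv j) (R_pos j) v0] with v hv h
      have h3 := hv fun h1 => by
        have h2 := htv v (h.resolve_left hcj)
        rw [h1] at h2; simp at h2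
      rw [hee, dt_neg_left, dt_neg_left] at h3
      rw [hg]
      exact neg_lt_neg_iff.mp h3
    · rw [hee]; exact hee2.symm
  · have hlt := dt_unit_lt hns hnt hd
    set e := t • tt v0 - s • tt u0 with he
    have he0 : e ≠ 0 := sub_ne_zero.mpr (Ne.symm hd)
    have hen : 0 < ‖e‖ := norm_pos_iff.mpr he0
    have heη : e = ‖e‖ • ee e.arg := by
      apply Complex.ext
      · simp [Complex.norm_mul_cos_arg]
      · simp [Complex.norm_mul_sin_arg]
    have hd1 : dt e (s • tt u0) < 0 := by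
      rw [he, dt_sub_left, dt_self, hns, dt_comm]; linarith
    have hd2 : 0 < dt e (t • tt v0) := by
      rw [he, dt_sub_left, dt_self, hnt]; linarith
    have hd1' : dt (ee e.arg) (s • tt u0) < 0 := by
      rw [heη, dt_smul_left] at hd1
      by_contra h
      exact absurd (mul_nonneg hen.le (not_lt.mp h)) (not_le.mpr hd1)
    have hd2' : 0 < dt (ee e.arg) (t • tt v0) := by
      rw [heη, dt_smul_left] at hd2
      exact (pos_iff_pos_of_mul_pos hd2).mp hen
    refine loc_of_line e.arg (dt (ee e.arg) (C.g i u0)) ?_ ?_ ?_ ?_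
    · filter_upwards [germ (C.crv i) (R_pos i) (ee e.arg) u0 s hs1 hd1'] with u hu h
      exact hu (hsu u (h.resolve_left hci))
    · filter_upwards [germ (C.crv j) (R_pos j) (-ee e.arg) v0 t ht1
        (by rw [dt_neg_left]; linarith)] with v hv h
      have h3 := hv (htv v (h.resolve_left hcj))
      rw [dt_neg_left, dt_neg_left] at h3
      rw [hg]
      exact neg_lt_neg_iff.mp h3
    · intro h
      have h1 : ee e.arg = -ee u0 := by rw [h, neg_neg]
      rw [h1, dt_neg_left, dt_smul_right, dt_ee_tt] at hd1'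
      simp at hd1'
    · intro h
      rw [← h, dt_smul_right, dt_ee_tt] at hd2'
      simp at hd2'

/-- Normal form of a parameter. -/
lemma exists_red (i : C.ι) (u0 : ℝ) (h : ¬C.closed i → u0 ∈ Icc (C.A i) (C.B i)) :
    ∃ m : ℤ, (¬C.closed i → m = 0) ∧ Per C i (m * C.P i) ∧
      u0 - m * C.P i ∈ Icc (C.A i) (C.B i) ∧ (C.closed i → u0 - m * C.P i < C.B i) := by
  by_cases hc : C.closed i
  · have hP : 0 < C.P i := sub_pos.mpr (C.hAB i)
    obtain ⟨m, hm, -⟩ := existsUnique_sub_zsmul_mem_Ico hP u0 (C.A i)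
    simp only [zsmul_eq_mul] at hm
    have h1 : C.A i + C.P i = C.B i := by rw [CTab.P]; ring
    rw [h1] at hm
    exact ⟨m, fun h => absurd hc h, per_mul i hc m, ⟨hm.1, hm.2.le⟩, fun _ => hm.2⟩
  · refine ⟨0, fun _ => rfl, ?_, ?_, fun h => absurd h hc⟩
    · rw [Int.cast_zero, zero_mul]; exact per_zero i
    · rw [Int.cast_zero, zero_mul, sub_zero]; exact h hc

/-- The local statement holds everywhere. -/
lemma loc_all (hR2 : G_R2 C) (i j : C.ι) (u0 v0 : ℝ)
    (hu : ¬C.closed i → u0 ∈ Icc (C.A i) (C.B i))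
    (hv : ¬C.closed j → v0 ∈ Icc (C.A j) (C.B j)) : Loc C i j u0 v0 := by
  by_cases hg : C.g i u0 = C.g j v0
  swap
  · exact loc_far hg
  obtain ⟨m, hm0, hmp, hmI, hmc⟩ := exists_red i u0 hu
  obtain ⟨n, hn0, hnp, hnI, hnc⟩ := exists_red j v0 hv
  have hg' : C.g i (u0 - m * C.P i) = C.g j (v0 - n * C.P j) := by
    rw [hmp.1, hnp.1, hg]
  have hsame : (i = j ∧ u0 - m * C.P i = v0 - n * C.P j) → Loc C i j u0 v0 := by
    rintro ⟨hij, h⟩
    subst hij
    refine loc_same (n - m) (fun hc => by rw [hm0 hc, hn0 hc, sub_zero]) ?_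
    push_cast
    linarith
  by_cases h1 : u0 - m * C.P i < C.B i ∧ (¬C.closed i → C.A i < u0 - m * C.P i)
  · exact hsame (C.simple i j _ _ ⟨hmI.1, h1.1, h1.2⟩ ⟨hnI.1, hnI.2, hnc⟩ hg')
  by_cases h2 : v0 - n * C.P j < C.B j ∧ (¬C.closed j → C.A j < v0 - n * C.P j)
  · have h3 := C.simple j i _ _ ⟨hnI.1, h2.1, h2.2⟩ ⟨hmI.1, hmI.2, hmc⟩ hg'.symm
    exact hsame ⟨h3.1.symm, h3.2.symm⟩
  have hci : ¬C.closed i := fun hc => h1 ⟨hmc hc, fun h => absurd hc h⟩
  have hcj : ¬C.closed j := fun hc => h2 ⟨hnc hc, fun h => absurd hc h⟩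
  rw [hm0 hci, Int.cast_zero, zero_mul, sub_zero] at h1
  rw [hn0 hcj, Int.cast_zero, zero_mul, sub_zero] at h2
  by_cases hsm : i = j ∧ u0 = v0
  · refine hsame ⟨hsm.1, ?_⟩
    rw [hm0 hci, hn0 hcj, hsm.2]
    simp
  have hu1 := hu hci
  have hv1 := hv hcj
  have key : ∀ (l : C.ι) (x : ℝ), ¬C.closed l → x ∈ Icc (C.A l) (C.B l) →
      ¬(x < C.B l ∧ (¬C.closed l → C.A l < x)) →
      ∃ s : ℝ, (s = 1 ∧ x = C.A l) ∨ (s = -1 ∧ x = C.B l) := by
    intro l x hl hx h
    by_cases hxB : x < C.B l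
    · refine ⟨1, Or.inl ⟨rfl, ?_⟩⟩
      by_contra hne
      exact h ⟨hxB, fun _ => lt_of_le_of_ne hx.1 (Ne.symm hne)⟩
    · exact ⟨-1, Or.inr ⟨rfl, le_antisymm hx.2 (not_lt.mp hxB)⟩⟩
  obtain ⟨s, hs⟩ := key i u0 hci hu1 h1
  obtain ⟨t, ht⟩ := key j v0 hcj hv1 h2
  exact loc_corner hR2 hci hcj hs ht hsm hg

open Classical in
/-- The compact interval of parameters. -/
noncomputable def L (C : CTab) (i : C.ι) : Set ℝ :=
  if C.closed i then Icc (C.A i - C.P i) (C.B i + C.P i) else Icc (C.A i) (C.B i)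

lemma isCompact_L (i : C.ι) : IsCompact (L C i) := by
  unfold L; split_ifs <;> exact isCompact_Icc

lemma of_mem_L {i : C.ι} {u : ℝ} (h : u ∈ L C i) (hc : ¬C.closed i) :
    u ∈ Icc (C.A i) (C.B i) := by
  unfold L at h; rwa [if_neg hc] at h

lemma mem_L_of {i : C.ι} {u : ℝ} (h : u ∈ Icc (C.A i) (C.B i)) : u ∈ L C i := by
  have hP : 0 < C.P i := sub_pos.mpr (C.hAB i)
  unfold L
  split_ifs
  · exact ⟨by linarith [h.1], by linarith [h.2]⟩
  · exact h

/-- Uniform version on the compact set. -/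
lemma uniform (hR2 : G_R2 C) (i j : C.ι) : ∃ δ : ℝ, 0 < δ ∧ ∀ a b a' b' : ℝ, a ∈ L C i →
    a' ∈ L C j → C.Sub i a b → C.Sub j a' b' → C.Apart i a b j a' b' → b - a < δ → b' - a' < δ →
    Cc C i a b j a' b' := by
  have hloc : ∀ x : (L C i ×ˢ L C j : Set (ℝ × ℝ)), ∃ ε : ℝ, 0 < ε ∧ ∀ a b a' b' : ℝ,
      |a - x.1.1| < ε → |b - x.1.1| < ε → |a' - x.1.2| < ε → |b' - x.1.2| < ε →
      C.Sub i a b → C.Sub j a' b' → C.Apart i a b j a' b' → Cc C i a b j a' b' := fun x =>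
    loc_all hR2 i j x.1.1 x.1.2 (of_mem_L x.2.1) (of_mem_L x.2.2)
  choose ε hε hcc using hloc
  obtain ⟨δ, hδ, hball⟩ := lebesgue_number_lemma_of_metric
    ((isCompact_L i).prod (isCompact_L j)) (c := fun x => Metric.ball x.1 (ε x))
    (fun x => Metric.isOpen_ball)
    (fun x hx => mem_iUnion.mpr ⟨⟨x, hx⟩, Metric.mem_ball_self (hε _)⟩)
  refine ⟨δ, hδ, ?_⟩
  intro a b a' b' ha ha' hS hS' hA hb hb'
  obtain ⟨x, hx⟩ := hball (a, a') ⟨ha, ha'⟩
  have h1 : (a, a') ∈ Metric.ball x.1 (ε x) := hx (Metric.mem_ball_self hδ)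
  have h2 : (b, b') ∈ Metric.ball x.1 (ε x) := hx (by
    rw [Metric.mem_ball, Prod.dist_eq, max_lt_iff, Real.dist_eq, Real.dist_eq, abs_lt, abs_lt]
    have h3 := hS.1
    have h4 := hS'.1
    exact ⟨⟨by linarith, by linarith⟩, ⟨by linarith, by linarith⟩⟩)
  rw [Metric.mem_ball, Prod.dist_eq, max_lt_iff, Real.dist_eq, Real.dist_eq] at h1 h2
  exact hcc x a b a' b' h1.1 h2.1 h1.2 h2.2 hS hS' hA

lemma sub_shift {i : C.ι} {a b : ℝ} {m : ℤ} (hm : ¬C.closed i → m = 0) (h : C.Sub i a b) :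
    C.Sub i (a - m * C.P i) (b - m * C.P i) := by
  refine ⟨by linarith [h.1], fun hc => ?_⟩
  rw [hm hc, Int.cast_zero, zero_mul, sub_zero, sub_zero]
  exact h.2 hc

/-- Uniform version for all parameters. -/
lemma uniform' (hR2 : G_R2 C) (i j : C.ι) : ∃ δ : ℝ, 0 < δ ∧ ∀ a b a' b' : ℝ,
    C.Sub i a b → C.Sub j a' b' → C.Apart i a b j a' b' → b - a < δ → b' - a' < δ →
    Cc C i a b j a' b' := by
  obtain ⟨δ, hδ, h⟩ := uniform hR2 i j
  refine ⟨δ, hδ, ?_⟩
  intro a b a' b' hS hS' hA hb hb'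
  have haI : ¬C.closed i → a ∈ Icc (C.A i) (C.B i) := fun hc =>
    ⟨(hS.2 hc).1, (hS.1.trans_le (hS.2 hc).2).le⟩
  have haJ : ¬C.closed j → a' ∈ Icc (C.A j) (C.B j) := fun hc =>
    ⟨(hS'.2 hc).1, (hS'.1.trans_le (hS'.2 hc).2).le⟩
  obtain ⟨m, hm0, hmp, hmI, hmc⟩ := exists_red i a haI
  by_cases hij : i = j
  · subst hij
    refine cc_shift hmp hmp (h _ _ _ _ (mem_L_of hmI) ?_ (sub_shift hm0 hS) (sub_shift hm0 hS')
      ?_ (by linarith) (by linarith))
    · rcases hA with hA | ⟨hc, hA⟩ | ⟨hc, hA⟩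
      · exact absurd rfl hA
      · rw [hm0 hc, Int.cast_zero, zero_mul, sub_zero]
        exact mem_L_of (haJ hc)
      · unfold L
        rw [if_pos hc]
        have h1 := hS.1
        have h2 := hS'.1
        have hP : 0 < C.P i := sub_pos.mpr (C.hAB i)
        rcases hA with ⟨h3, h4⟩ | ⟨h3, h4⟩
        · exact ⟨by linarith [hmI.1], by linarith [hmI.2]⟩
        · exact ⟨by linarith [hmI.1], by linarith [hmI.2]⟩
    · rcases hA with hA | ⟨hc, hA⟩ | ⟨hc, hA⟩
      · exact Or.inl hA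
      · exact Or.inr (Or.inl ⟨hc, hA.imp (fun h => by linarith) (fun h => by linarith)⟩)
      · exact Or.inr (Or.inr ⟨hc, hA.imp (fun h => ⟨by linarith [h.1], by linarith [h.2]⟩)
          (fun h => ⟨by linarith [h.1], by linarith [h.2]⟩)⟩)
  · obtain ⟨n, hn0, hnp, hnI, hnc⟩ := exists_red j a' haJ
    exact cc_shift hmp hnp (h _ _ _ _ (mem_L_of hmI) (mem_L_of hnI) (sub_shift hm0 hS)
      (sub_shift hn0 hS') (Or.inl hij) (by linarith) (by linarith))

theorem thm (C : CTab) : G_R2 C → G_SEP C := by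
  intro hR2
  have := C.fin
  have h1 : ∀ᶠ μ : ℝ in 𝓝[>] 0, ∀ i j : C.ι, ∀ a b a' b' : ℝ,
      C.Sub i a b → C.Sub j a' b' → C.Apart i a b j a' b' → b - a ≤ μ → b' - a' ≤ μ →
      Cc C i a b j a' b' := by
    rw [eventually_all]; intro i
    rw [eventually_all]; intro j
    obtain ⟨δ, hδ, h⟩ := uniform' hR2 i j
    filter_upwards [Ioo_mem_nhdsGT hδ] with μ hμ a b a' b' hS hS' hA hb hb'
    exact h a b a' b' hS hS' hA (hb.trans_lt hμ.2) (hb'.trans_lt hμ.2)
  obtain ⟨μ, hμ, hμ0⟩ := (h1.and self_mem_nhdsWithin).exists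
  exact ⟨μ, hμ0, hμ⟩

end Pool.Agent.Helper42.DB.PkSEP
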